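import Pool.Agent.Helper21.CU.St

set_option autoImplicit false

open Finset

noncomputable section

namespace Pool.Agent.Helper53.CU
open Pool.Agent.Helper21.CU

lemma norm_ec (t : ℝ) : ‖ec t‖ = 1 := by
  unfold ec
  have h : (2 * (Real.pi:ℂ) * t * Complex.I) = ((2 * Real.pi * t : ℝ) : ℂ) * Complex.I := by
    push_cast; ring
  rw [h, Complex.norm_exp_ofReal_mul_I]

lemma ec_add_int (t : ℝ) (m : ℤ) : ec (t + m) = ec t := by
  unfold ec
  rw [Complex.exp_eq_exp_iff_exists_int]
  exact ⟨m, by push_cast; ring⟩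

lemma norm_W_le (k : ℤ) (s : ℕ) (n : ℤ) : ‖W k s n‖ ≤ (R k s).card := by
  unfold W
  refine (norm_sum_le _ _).trans ?_
  simp [norm_ec]

lemma W_congr (k : ℤ) (a : ℕ) (ha : 1 ≤ a) (m m' : ℤ) (h : (a:ℤ) ∣ m - m') :
    W k a m = W k a m' := by
  obtain ⟨c, hc⟩ := h
  unfold W
  refine Finset.sum_congr rfl fun v _ => ?_
  have ha' : (a:ℝ) ≠ 0 := by positivity
  have e1 : (m : ℝ) = m' + a * c := by
    have : m = m' + a * c := by linarith
    exact_mod_cast this
  have e2 : (m:ℝ) * v / a = (m':ℝ) * v / a + ((c * v : ℤ) : ℝ) := by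
    rw [e1]; push_cast; field_simp
  rw [e2, ec_add_int]

open scoped Classical in
lemma sp_facts (z : ℝ) (s a : ℕ) (hs : s ≠ 0) (h : sp z s = a) :
    ∃ b, s = a * b ∧ a.Coprime b ∧ ∀ p : ℕ, p.Prime → p ∣ b → z < p := by
  have hdvd : a ∣ s := by
    rw [← h]
    conv_rhs => rw [← Nat.prod_factorization_pow_eq_self hs]
    unfold sp
    rw [Finsupp.prod, Nat.support_factorization]
    exact Finset.prod_dvd_prod_of_subset _ _ _ (Finset.filter_subset _ _)
  obtain ⟨b, hb⟩ := hdvd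
  have hb0 : b ≠ 0 := by rintro rfl; simp at hb; exact hs hb
  have ha0 : a ≠ 0 := by rintro rfl; simp at hb; exact hs hb
  have hpr : ∀ p : ℕ, p.Prime → p ∣ b → z < p := by
    intro p hp hpb
    by_contra hz
    have hz' : (p:ℝ) ≤ z := not_lt.mp hz
    have hps : p ∣ s := hb ▸ (hpb.mul_left a)
    have hmem : p ∈ s.primeFactors.filter (fun p : ℕ => (p : ℝ) ≤ z) := by
      rw [Finset.mem_filter]
      exact ⟨Nat.mem_primeFactors.mpr ⟨hp, hps, hs⟩, hz'⟩
    have h1 : p ^ s.factorization p ∣ a := by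
      rw [← h]
      unfold sp
      exact Finset.dvd_prod_of_mem (fun p => p ^ s.factorization p) hmem
    have h2 : p ^ (s.factorization p + 1) ∣ s := by
      rw [pow_succ]
      conv_rhs => rw [hb]
      exact Nat.mul_dvd_mul h1 hpb
    exact Nat.pow_succ_factorization_not_dvd hs hp h2
  refine ⟨b, hb, ?_, hpr⟩
  rw [Nat.coprime_iff_gcd_eq_one]
  by_contra hg
  obtain ⟨p, hp, hpg⟩ := Nat.exists_prime_and_dvd hg
  have hpa : p ∣ a := hpg.trans (Nat.gcd_dvd_left _ _)
  have hpb : p ∣ b := hpg.trans (Nat.gcd_dvd_right _ _)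
  have hz := hpr p hp hpb
  rw [← h] at hpa
  unfold sp at hpa
  rw [Prime.dvd_finset_prod_iff hp.prime] at hpa
  obtain ⟨q, hq, hpq⟩ := hpa
  rw [Finset.mem_filter, Nat.mem_primeFactors] at hq
  have : p = q := (Nat.prime_dvd_prime_iff_eq hp hq.1.1).mp (hp.dvd_of_dvd_pow hpq)
  subst this
  linarith [hq.2]

lemma log_three : Real.log 3 ≤ 1.1 := by
  rw [Real.log_le_iff_le_exp (by norm_num)]
  have h1 := Real.exp_one_gt_d9
  have h2 := Real.quadratic_le_exp_of_nonneg (x := (0.1:ℝ)) (by norm_num)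
  have h3 : Real.exp 1.1 = Real.exp 1 * Real.exp 0.1 := by
    rw [← Real.exp_add]; norm_num
  rw [h3]
  nlinarith [Real.exp_pos 1, Real.exp_pos 0.1]

/-- the number of prime factors of `b` -/
lemma omega_bound (x b : ℕ) (hx : 16 ≤ x) (hb : 1 ≤ b) (hbx : b ≤ x)
    (hL : 0 < Real.log (Real.log x))
    (hpr : ∀ p : ℕ, p.Prime → p ∣ b → zz (1/20) x < p) :
    (3:ℝ) ^ b.primeFactors.card ≤ Real.log x ^ (0.055:ℝ) := by
  have hlx : 0 < Real.log x := by
    apply Real.log_pos
    exact_mod_cast (by omega : 1 < x)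
  have hz : (zz (1/20) x) ^ b.primeFactors.card ≤ x := by
    calc (zz (1/20) x) ^ b.primeFactors.card = ∏ p ∈ b.primeFactors, zz (1/20) x := by
          rw [Finset.prod_const]
      _ ≤ ∏ p ∈ b.primeFactors, (p:ℝ) := by
          apply Finset.prod_le_prod
          · intro i _; exact (Real.exp_pos _).le
          · intro p hp
            rw [Nat.mem_primeFactors] at hp
            exact (hpr p hp.1 hp.2.1).le
      _ = ((∏ p ∈ b.primeFactors, p : ℕ) : ℝ) := by push_cast; rfl
      _ ≤ (b:ℝ) := by exact_mod_cast Nat.le_of_dvd hb (Nat.prod_primeFactors_dvd b)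
      _ ≤ x := by exact_mod_cast hbx
  have h1 : (b.primeFactors.card : ℝ) * (Real.log x / (1/20 * Real.log (Real.log x))) ≤ Real.log x := by
    have h2 := Real.log_le_log (by
      unfold zz
      positivity) hz
    rw [Real.log_pow] at h2
    unfold zz at h2
    rwa [Real.log_exp] at h2
  have h3 : (b.primeFactors.card : ℝ) ≤ 1/20 * Real.log (Real.log x) := by
    rw [mul_div_assoc'] at h1
    rw [div_le_iff₀ (by positivity)] at h1
    have h4 : (b.primeFactors.card : ℝ) * Real.log x ≤ (1/20 * Real.log (Real.log x)) * Real.log x := by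
      linarith
    exact le_of_mul_le_mul_right h4 hlx
  calc (3:ℝ) ^ b.primeFactors.card = Real.exp (Real.log 3 * b.primeFactors.card) := by
        rw [mul_comm, ← Real.log_pow, Real.exp_log (by positivity)]
    _ ≤ Real.exp (Real.log (Real.log x) * 0.055) := by
        apply Real.exp_le_exp.mpr
        have h5 : Real.log 3 * (b.primeFactors.card:ℝ) ≤ 1.1 * (1/20 * Real.log (Real.log x)) :=
          mul_le_mul log_three h3 (by positivity) (by norm_num)
        linarith
    _ = Real.log x ^ (0.055:ℝ) := by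
        rw [Real.rpow_def_of_pos hlx]

lemma inv_mod (a b : ℕ) (h : a.Coprime b) : ∃ b' : ℤ, (a:ℤ) ∣ b * b' - 1 := by
  have h1 : IsCoprime (a:ℤ) (b:ℤ) := Nat.isCoprime_iff_coprime.mpr h
  obtain ⟨u, v, huv⟩ := h1
  exact ⟨v, ⟨-u, by linarith⟩⟩

theorem hHOA (h1 : StCRT) (h2 : StOM) (h3 : StBRN) (h4 : StMOM) : StHOA := by
  classical
  intro k hk
  have hk0 : k ≠ 0 := by
    rintro rfl
    exact hk 0 (by norm_num)
  obtain ⟨K, hK1, hK⟩ := h2 k hk0
  obtain ⟨C, hC, x₀, hB⟩ := h3 (1/20) (by norm_num)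
  refine ⟨K * C * (1/0.045), by positivity, max x₀ 16, ?_⟩
  intro x hx N h hN hh n hn a ha hax
  have hx0 : x₀ ≤ x := le_trans (le_max_left _ _) hx
  have hx16 : 16 ≤ x := le_trans (le_max_right _ _) hx
  have hx16r : (16:ℝ) ≤ x := by exact_mod_cast hx16
  have hxpos : (0:ℝ) < x := by linarith
  have hlx1 : 1 < Real.log x := by
    rw [Real.lt_log_iff_exp_lt hxpos]
    have := Real.exp_one_lt_d9
    linarith
  have hlx : 0 < Real.log x := by linarith
  have hL : 0 < Real.log (Real.log x) := Real.log_pos hlx1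
  set y : ℕ := x / a with hy
  have hapos : (0:ℝ) < a := by exact_mod_cast ha
  have hφ : 0 < Nat.totient a := Nat.totient_pos.mpr ha
  have hφr : (0:ℝ) < (Nat.totient a : ℝ) := by exact_mod_cast hφ
  -- the size of y
  have hyx : y ≤ x := Nat.div_le_self _ _
  have hyr : (y:ℝ) ≤ x / a := Nat.cast_div_le
  have hysq : √(x:ℝ) ≤ y := by
    have e1 : (x:ℝ) / a < y + 1 := by
      rw [div_lt_iff₀ hapos]
      have : x < (y + 1) * a := by
        rw [hy]
        have := Nat.lt_mul_div_succ x (show 0 < a by omega)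
        rw [mul_comm] at this
        exact this
      exact_mod_cast this
    set q : ℝ := (x:ℝ) ^ (1/4 : ℝ) with hq
    have hq4 : q ^ 4 = x := by
      rw [hq, ← Real.rpow_natCast, ← Real.rpow_mul hxpos.le]; norm_num
    have hqpos : 0 < q := by positivity
    have hq2 : 2 ≤ q := by
      by_contra hcon
      push Not at hcon
      have : q ^ 4 < 2 ^ 4 := by gcongr
      linarith
    have hs : √(x:ℝ) = q ^ 2 := by
      rw [← hq4, show q ^ 4 = (q ^ 2) ^ 2 by ring, Real.sqrt_sq (by positivity)]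
    have e2 : q ^ 3 ≤ x / a := by
      rw [le_div_iff₀ hapos, ← hq4]
      calc q ^ 3 * a ≤ q ^ 3 * q := by gcongr
        _ = q ^ 4 := by ring
    rw [hs]
    nlinarith [sq_nonneg q]
  set M : ℝ := K * Real.log x ^ (0.055:ℝ) with hM
  have hMpos : 0 ≤ M := by positivity
  set F := (Icc 1 x).filter (fun s : ℕ => s.Coprime N ∧ sp (zz (1 / 20) x) s = a) with hF
  have hfacts : ∀ s ∈ F, s = a * (s / a) ∧ a.Coprime (s / a) ∧ 1 ≤ s / a ∧ s / a ≤ y ∧ s / a ≤ x ∧
      ∀ p : ℕ, p.Prime → p ∣ s / a → zz (1/20) x < p := by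
    intro s hs
    rw [hF, Finset.mem_filter, Finset.mem_Icc] at hs
    obtain ⟨⟨hs1, hsx⟩, hsN, hsp⟩ := hs
    obtain ⟨b, hb, hcop, hpr⟩ := sp_facts _ s a (by omega) hsp
    have hsb : s / a = b := by rw [hb]; exact Nat.mul_div_cancel_left b (by omega)
    rw [hsb]
    have hb1 : 1 ≤ b := by
      rcases Nat.eq_zero_or_pos b with h0 | h0
      · subst h0; omega
      · exact h0
    refine ⟨hb, hcop, hb1, ?_, ?_, hpr⟩
    · rw [hy, ← hsb]; exact Nat.div_le_div_right hsx
    · rw [← hsb]; exact (Nat.div_le_self _ _).trans hsx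
  have hT : ∀ s ∈ F, ∃ t : ℕ, t < a ∧ (a:ℤ) ∣ N * ((s / a : ℕ):ℤ) * t - 1 ∧
      ‖W k s (h * n s)‖ ≤ M * ‖W k a (h * t)‖ := by
    intro s hs
    obtain ⟨e, hcop, hb1, hby, hbx, hpr⟩ := hfacts s hs
    rw [hF, Finset.mem_filter, Finset.mem_Icc] at hs
    obtain ⟨⟨hs1, hsx⟩, hsN, hsp⟩ := hs
    set b := s / a with hb
    obtain ⟨b', hb'⟩ := inv_mod a b hcop
    obtain ⟨a', ha'⟩ := inv_mod b a hcop.symm
    have hns : (s:ℤ) ∣ N * n s - 1 := hn s hs1 hsN
    have hna : (a:ℤ) ∣ N * n s - 1 := by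
      refine dvd_trans ?_ hns
      rw [e]; push_cast; exact dvd_mul_right _ _
    obtain ⟨-, hW⟩ := h1 k a b ha hb1 hcop
    have hW' := hW (h * n s) a' b' hb' ha'
    have ha0 : (a:ℤ) ≠ 0 := by exact_mod_cast (by omega : a ≠ 0)
    refine ⟨((n s * b') % (a:ℤ)).toNat, ?_, ?_, ?_⟩
    · have := Int.emod_lt_of_pos (n s * b') (show (0:ℤ) < a by exact_mod_cast ha)
      have h0 := Int.emod_nonneg (n s * b') ha0
      omega
    · have h0 := Int.emod_nonneg (n s * b') ha0
      rw [Int.toNat_of_nonneg h0]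
      have hd : (a:ℤ) ∣ n s * b' - (n s * b') % a := Int.dvd_self_sub_emod
      obtain ⟨c1, hc1⟩ := hd
      obtain ⟨c2, hc2⟩ := hna
      obtain ⟨c3, hc3⟩ := hb'
      refine ⟨c2 * (b * b') + c3 - N * b * c1, ?_⟩
      have e1 : (n s * b') % (a:ℤ) = n s * b' - a * c1 := by linarith
      rw [e1]
      have : (N:ℤ) * b * (n s * b' - a * c1) - 1 =
        (N * n s - 1) * (b * b') + (b * b' - 1) - N * b * (a * c1) := by ring
      rw [this, hc2, hc3]
      ring
    · have h0 := Int.emod_nonneg (n s * b') ha0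
      have hWa : W k a (h * n s * b') = W k a (h * (((n s * b') % (a:ℤ)).toNat : ℕ)) := by
        apply W_congr k a ha
        rw [Int.toNat_of_nonneg h0]
        have hd : (a:ℤ) ∣ n s * b' - (n s * b') % a := Int.dvd_self_sub_emod
        have : (h:ℤ) * n s * b' - h * ((n s * b') % a) = h * (n s * b' - (n s * b') % a) := by ring
        rw [this]
        exact hd.mul_left _
      have hWs : ‖W k s (h * n s)‖ = ‖W k a (h * n s * b')‖ * ‖W k b (h * n s * a')‖ := by
        rw [← norm_mul, ← hW']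
        congr 2
      rw [hWs, hWa, mul_comm]
      apply mul_le_mul_of_nonneg_right _ (norm_nonneg _)
      calc ‖W k b (h * n s * a')‖ ≤ (R k b).card := norm_W_le _ _ _
        _ ≤ ((K * 3 ^ b.primeFactors.card : ℕ) : ℝ) := by exact_mod_cast hK b hb1
        _ = K * 3 ^ b.primeFactors.card := by push_cast; ring
        _ ≤ M := by
          rw [hM]
          exact mul_le_mul_of_nonneg_left (omega_bound x b hx16 hb1 hbx hL hpr) (by positivity)
  choose! T hT1 hT2 hT3 using hT
  set U := (range a).filter (fun t => a.Coprime t) with hU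
  have hmaps : ∀ s ∈ F, T s ∈ U := by
    intro s hs
    rw [hU, Finset.mem_filter, Finset.mem_range]
    refine ⟨hT1 s hs, ?_⟩
    obtain ⟨c, hc⟩ := hT2 s hs
    rw [← Nat.isCoprime_iff_coprime]
    exact ⟨-c, N * ((s / a : ℕ):ℤ), by linarith⟩
  set Bd : ℝ := C * y * Real.log (Real.log x) / (Nat.totient a * Real.log x) with hBd
  have hBdpos : 0 ≤ Bd := by positivity
  have hcard : ∀ t ∈ U, ((F.filter (fun s => T s = t)).card : ℝ) ≤ Bd := by
    intro t ht
    rcases (F.filter (fun s => T s = t)).eq_empty_or_nonempty with he | ⟨s₀, hs₀⟩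
    · rw [he]; simpa using hBdpos
    · rw [Finset.mem_filter] at hs₀
      obtain ⟨hs₀F, hs₀t⟩ := hs₀
      obtain ⟨e0, hcop0, hb01, hb0y, hb0x, hpr0⟩ := hfacts s₀ hs₀F
      refine le_trans ?_ (hB x hx0 a (s₀ / a) y ha hax hcop0.symm hysq hyx)
      have : (F.filter (fun s => T s = t)).card ≤ ((Icc 1 y).filter (fun b : ℕ => b % a = (s₀ / a) % a ∧
          ∀ p : ℕ, p.Prime → p ∣ b → zz (1/20) x < p)).card := by
        apply Finset.card_le_card_of_injOn (fun s => s / a)
        · intro s hs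
          rw [Finset.mem_coe, Finset.mem_filter] at hs
          obtain ⟨hsF, hst⟩ := hs
          obtain ⟨e, hcop, hb1, hby, hbx, hpr⟩ := hfacts s hsF
          rw [Finset.mem_coe, Finset.mem_filter, Finset.mem_Icc]
          refine ⟨⟨hb1, hby⟩, ?_, hpr⟩
          have d1 := hT2 s hsF
          have d2 := hT2 s₀ hs₀F
          rw [hst] at d1
          rw [hs₀t] at d2
          have d3 : (a:ℤ) ∣ ((s₀ / a : ℕ):ℤ) - ((s / a : ℕ):ℤ) := by
            have : ((s₀ / a : ℕ):ℤ) - ((s / a : ℕ):ℤ) =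
                ((s / a : ℕ):ℤ) * (N * ((s₀ / a : ℕ):ℤ) * t - 1) -
                ((s₀ / a : ℕ):ℤ) * (N * ((s / a : ℕ):ℤ) * t - 1) := by ring
            rw [this]
            exact dvd_sub (d2.mul_left _) (d1.mul_left _)
          have d4 : s / a ≡ s₀ / a [MOD a] := (Nat.modEq_iff_dvd).mpr d3
          exact d4
        · intro s hs s' hs' hss
          rw [Finset.mem_coe, Finset.mem_filter] at hs hs'
          have e := (hfacts s hs.1).1
          have e' := (hfacts s' hs'.1).1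
          simp only at hss
          rw [e, e', hss]
      exact_mod_cast this
  have hsum1 : ∑ s ∈ F, ‖W k s (h * n s)‖ ≤ M * (Bd * ∑ t ∈ U, ‖W k a (h * t)‖) := by
    calc ∑ s ∈ F, ‖W k s (h * n s)‖ ≤ ∑ s ∈ F, M * ‖W k a (h * (T s : ℕ))‖ :=
          Finset.sum_le_sum fun s hs => hT3 s hs
      _ = M * ∑ s ∈ F, ‖W k a (h * (T s : ℕ))‖ := by rw [Finset.mul_sum]
      _ = M * ∑ t ∈ U, ∑ s ∈ F.filter (fun s => T s = t), ‖W k a (h * (T s : ℕ))‖ := by
          rw [Finset.sum_fiberwise_of_maps_to hmaps]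
      _ = M * ∑ t ∈ U, ((F.filter (fun s => T s = t)).card : ℝ) * ‖W k a (h * (t : ℕ))‖ := by
          congr 1
          refine Finset.sum_congr rfl fun t ht => ?_
          rw [← nsmul_eq_mul, ← Finset.sum_const]
          refine Finset.sum_congr rfl fun s hs => ?_
          rw [(Finset.mem_filter.mp hs).2]
      _ ≤ M * ∑ t ∈ U, Bd * ‖W k a (h * (t : ℕ))‖ := by
          apply mul_le_mul_of_nonneg_left _ hMpos
          exact Finset.sum_le_sum fun t ht => mul_le_mul_of_nonneg_right (hcard t ht) (norm_nonneg _)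
      _ = M * (Bd * ∑ t ∈ U, ‖W k a (h * t)‖) := by rw [← Finset.mul_sum]
  have hUc : (U.card : ℝ) = Nat.totient a := by
    rw [hU, Nat.totient]
  have hCS : ∑ t ∈ U, ‖W k a (h * t)‖ ≤ √((Nat.totient a : ℝ) * ((a:ℝ) * (R k a).card * h)) := by
    apply Real.le_sqrt_of_sq_le
    calc (∑ t ∈ U, ‖W k a (h * t)‖) ^ 2 ≤ U.card * ∑ t ∈ U, ‖W k a (h * t)‖ ^ 2 := sq_sum_le_card_mul_sum_sq
      _ ≤ U.card * ∑ t ∈ range a, ‖W k a (h * t)‖ ^ 2 := by
          apply mul_le_mul_of_nonneg_left _ (by positivity)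
          apply Finset.sum_le_sum_of_subset_of_nonneg (Finset.filter_subset _ _)
          intros; positivity
      _ ≤ _ := by
          rw [hUc]
          exact mul_le_mul_of_nonneg_left (h4 k a h ha hh) (by positivity)
  -- final computation
  have hLb : Real.log (Real.log x) ≤ Real.log x ^ (0.045:ℝ) / 0.045 :=
    Real.log_le_rpow_div hlx.le (by norm_num)
  have hpow : Real.log x ^ (0.055:ℝ) * (Real.log x ^ (0.045:ℝ)) / Real.log x = Real.log x ^ (-(9/10):ℝ) := by
    rw [← Real.rpow_add hlx]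
    nth_rewrite 2 [← Real.rpow_one (Real.log x)]
    rw [← Real.rpow_sub hlx]
    norm_num
  have hsq : √((Nat.totient a : ℝ) * ((a:ℝ) * (R k a).card * h)) / Nat.totient a =
      √((a : ℝ) / Nat.totient a) * √((R k a).card : ℝ) * √(h:ℝ) := by
    rw [← Real.sqrt_mul (by positivity), ← Real.sqrt_mul (by positivity)]
    rw [div_eq_iff hφr.ne']
    rw [← Real.sqrt_sq hφr.le, ← Real.sqrt_mul (by positivity)]
    rw [Real.sqrt_sq hφr.le]
    congr 1
    field_simp
  calc ∑ s ∈ F, ‖W k s (h * n s)‖ ≤ M * (Bd * ∑ t ∈ U, ‖W k a (h * t)‖) := hsum1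
    _ ≤ M * (Bd * √((Nat.totient a : ℝ) * ((a:ℝ) * (R k a).card * h))) := by gcongr
    _ = (K * C * √(h:ℝ)) * (Real.log x ^ (0.055:ℝ) * Real.log (Real.log x) / Real.log x) * y *
          (√((a : ℝ) / Nat.totient a) * √((R k a).card : ℝ)) := by
        have e1 : M * (Bd * √((Nat.totient a : ℝ) * ((a:ℝ) * (R k a).card * h))) =
          (K * C) * (Real.log x ^ (0.055:ℝ) * Real.log (Real.log x) / Real.log x) * y *
          (√((Nat.totient a : ℝ) * ((a:ℝ) * (R k a).card * h)) / Nat.totient a) := by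
            rw [hM, hBd]
            field_simp
        rw [e1, hsq]
        ring
    _ ≤ (K * C * √(h:ℝ)) * (Real.log x ^ (0.055:ℝ) * (Real.log x ^ (0.045:ℝ) / 0.045) / Real.log x) * (x / a) *
          (√((a : ℝ) / Nat.totient a) * √((R k a).card : ℝ)) := by gcongr
    _ = (K * C * √(h:ℝ)) * ((Real.log x ^ (0.055:ℝ) * (Real.log x ^ (0.045:ℝ)) / Real.log x) / 0.045) * (x / a) *
          (√((a : ℝ) / Nat.totient a) * √((R k a).card : ℝ)) := by ring
    _ = K * C * (1/0.045) * √(h : ℝ) * x * Real.log x ^ (-(9 / 10) : ℝ) *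
          (√((a : ℝ) / Nat.totient a) * √((R k a).card : ℝ) / a) := by
        rw [hpow]; ring

end Pool.Agent.Helper53.CU
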